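import Pool.Agent.V5helper51.MT.Stm

/-! Project MT, job AE. -/

set_option autoImplicit false

namespace Pool.Agent.V5helper70.MT

open Finset MeasureTheory Filter
open Pool.Agent.V5helper51.MT
open scoped ENNReal

lemma meas_a (k q x : ℕ) : Measurable fun α : Fin (k - 1) → ℝ => a k q α x := by
  unfold a g
  have h1 : Measurable fun α : Fin (k - 1) → ℝ => ∑ j, α j * (x : ℝ) ^ ((j : ℕ) + 1) := by
    apply Finset.measurable_sum
    intro j _
    exact (measurable_pi_apply j).mul_const _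
  have h2 : Measurable fun α : Fin (k - 1) → ℝ => ⌊∑ j, α j * (x : ℝ) ^ ((j : ℕ) + 1)⌋ := Int.measurable_floor.comp h1
  exact (Measurable.of_discrete (f := fun z : ℤ => (x : ℤ) ^ k + q * z)).comp h2

lemma meas_E (k q : ℕ) (x y : Fin k → ℕ) :
    MeasurableSet {α : Fin (k - 1) → ℝ | ∑ i, a k q α (x i) = ∑ i, a k q α (y i)} := by
  apply measurableSet_eq_fun
  · exact Finset.measurable_sum _ fun i _ => meas_a k q (x i)
  · exact Finset.measurable_sum _ fun i _ => meas_a k q (y i)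

lemma meas_cube (k A : ℕ) : MeasurableSet (cube k A) := by
  have e : cube k A = ⋂ j, {α : Fin (k - 1) → ℝ | |α j| ≤ A} := by
    ext α
    simp [cube]
  rw [e]
  apply MeasurableSet.iInter
  intro j
  exact measurableSet_le (measurable_pi_apply j).abs measurable_const

lemma cube_fin (k A : ℕ) : volume (cube k A) ≠ ⊤ := by
  have h : cube k A ⊆ Set.pi Set.univ fun _ : Fin (k - 1) => Set.Icc (-(A : ℝ)) A := by
    intro α hα j _
    exact abs_le.1 (hα j)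
  refine ne_top_of_le_ne_top ?_ (measure_mono h)
  rw [volume_pi_pi]
  exact (ENNReal.prod_lt_top fun j _ => by simp [Real.volume_Icc]).ne

/-- the number of pairs -/
noncomputable def NN (k q m : ℕ) (α : Fin (k - 1) → ℝ) : ℕ :=
  ((box k (2 ^ m) ×ˢ box k (2 ^ m)).filter fun p : (Fin k → ℕ) × (Fin k → ℕ) =>
    ∑ i, a k q α (p.1 i) = ∑ i, a k q α (p.2 i)).card

lemma NN_eq (k q m : ℕ) (α : Fin (k - 1) → ℝ) : ((NN k q m α : ℕ) : ℝ≥0∞) =
    ∑ p ∈ box k (2 ^ m) ×ˢ box k (2 ^ m),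
      {β : Fin (k - 1) → ℝ | ∑ i, a k q β (p.1 i) = ∑ i, a k q β (p.2 i)}.indicator (fun _ => (1 : ℝ≥0∞)) α := by
  unfold NN
  rw [card_filter]
  push_cast
  apply sum_congr rfl
  intro p _
  by_cases h : ∑ i, a k q α (p.1 i) = ∑ i, a k q α (p.2 i)
  · rw [if_pos h]
    exact (Set.indicator_of_mem (show α ∈ {β : Fin (k - 1) → ℝ | ∑ i, a k q β (p.1 i) =
      ∑ i, a k q β (p.2 i)} from h) (fun _ => (1 : ℝ≥0∞))).symm
  · rw [if_neg h]
    exact (Set.indicator_of_notMem (show α ∉ {β : Fin (k - 1) → ℝ | ∑ i, a k q β (p.1 i) =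
      ∑ i, a k q β (p.2 i)} from h) (fun _ => (1 : ℝ≥0∞))).symm

lemma bad (hMV : S_MV) (k q A : ℕ) (hk : 2 ≤ k) (hq : 1 ≤ q) (hA : 1 ≤ A) : ∃ C : ℝ, 0 < C ∧ ∀ m : ℕ, 1 ≤ m →
    (volume.restrict (cube k A)) {α : Fin (k - 1) → ℝ | ((2 : ℝ) ^ m) ^ k * (m : ℝ) ^ 3 < (NN k q m α : ℝ)} ≤
      ENNReal.ofReal (C / (m : ℝ) ^ 2) := by
  obtain ⟨C, hC, h⟩ := hMV k q A hk hq hA
  refine ⟨C, hC, fun m hm => ?_⟩
  have hm0 : (0 : ℝ) < m := by exact_mod_cast hm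
  have hP : 2 ≤ 2 ^ m := by
    calc 2 = 2 ^ 1 := by norm_num
      _ ≤ 2 ^ m := Nat.pow_le_pow_right (by norm_num) hm
  have h1 := h (2 ^ m) hP
  push_cast at h1
  have hmeas : AEMeasurable (fun α : Fin (k - 1) → ℝ => ((NN k q m α : ℕ) : ℝ≥0∞)) (volume.restrict (cube k A)) := by
    apply Measurable.aemeasurable
    simp only [NN_eq]
    apply Finset.measurable_sum
    intro p _
    exact measurable_const.indicator (meas_E k q p.1 p.2)
  have hint : ∫⁻ α, ((NN k q m α : ℕ) : ℝ≥0∞) ∂(volume.restrict (cube k A)) ≤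
      ENNReal.ofReal (C * ((2 : ℝ) ^ m) ^ k * Real.log (2 ^ m)) := by
    simp only [NN_eq]
    rw [lintegral_finsetSum _ (fun p _ => measurable_const.indicator (meas_E k q p.1 p.2))]
    have e1 : ∀ p : (Fin k → ℕ) × (Fin k → ℕ), ∫⁻ α, {β : Fin (k - 1) → ℝ | ∑ i, a k q β (p.1 i) =
        ∑ i, a k q β (p.2 i)}.indicator (fun _ => (1 : ℝ≥0∞)) α ∂(volume.restrict (cube k A)) =
        ENNReal.ofReal (volume.real {α : Fin (k - 1) → ℝ | α ∈ cube k A ∧
          ∑ i, a k q α (p.1 i) = ∑ i, a k q α (p.2 i)}) := by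
      intro p
      rw [lintegral_indicator (meas_E k q p.1 p.2), setLIntegral_one, Measure.restrict_apply (meas_E k q p.1 p.2)]
      have e2 : {β : Fin (k - 1) → ℝ | ∑ i, a k q β (p.1 i) = ∑ i, a k q β (p.2 i)} ∩ cube k A =
          {α : Fin (k - 1) → ℝ | α ∈ cube k A ∧ ∑ i, a k q α (p.1 i) = ∑ i, a k q α (p.2 i)} := by
        ext α
        exact and_comm
      rw [e2, ofReal_measureReal (ne_top_of_le_ne_top (cube_fin k A) (measure_mono fun α hα => hα.1))]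
    simp only [e1]
    rw [← ENNReal.ofReal_sum_of_nonneg (fun p _ => measureReal_nonneg)]
    apply ENNReal.ofReal_le_ofReal
    rw [sum_product]
    exact h1
  have hmk := mul_meas_ge_le_lintegral₀ hmeas (ENNReal.ofReal (((2 : ℝ) ^ m) ^ k * (m : ℝ) ^ 3))
  have hB0 : 0 < ((2 : ℝ) ^ m) ^ k * (m : ℝ) ^ 3 := by positivity
  have hsub : {α : Fin (k - 1) → ℝ | ((2 : ℝ) ^ m) ^ k * (m : ℝ) ^ 3 < (NN k q m α : ℝ)} ⊆
      {α | ENNReal.ofReal (((2 : ℝ) ^ m) ^ k * (m : ℝ) ^ 3) ≤ ((NN k q m α : ℕ) : ℝ≥0∞)} := by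
    intro α hα
    have h2 : ((2 : ℝ) ^ m) ^ k * (m : ℝ) ^ 3 < (NN k q m α : ℝ) := hα
    show ENNReal.ofReal (((2 : ℝ) ^ m) ^ k * (m : ℝ) ^ 3) ≤ ((NN k q m α : ℕ) : ℝ≥0∞)
    rw [← ENNReal.ofReal_natCast]
    exact ENNReal.ofReal_le_ofReal h2.le
  refine (measure_mono hsub).trans ?_
  have h3 := hmk.trans hint
  rw [mul_comm, ← ENNReal.le_div_iff_mul_le (Or.inl (by simpa using hB0)) (Or.inl ENNReal.ofReal_ne_top),
    ← ENNReal.ofReal_div_of_pos hB0] at h3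
  refine h3.trans (ENNReal.ofReal_le_ofReal ?_)
  rw [div_le_div_iff₀ hB0 (by positivity), Real.log_pow]
  have hl : Real.log 2 ≤ 1 := by
    have := Real.log_two_lt_d9
    linarith
  have h4 : (m : ℝ) * Real.log 2 ≤ m := by nlinarith
  calc C * ((2 : ℝ) ^ m) ^ k * ((m : ℝ) * Real.log 2) * (m : ℝ) ^ 2 ≤ C * ((2 : ℝ) ^ m) ^ k * (m : ℝ) * (m : ℝ) ^ 2 := by
        apply mul_le_mul_of_nonneg_right _ (by positivity)
        exact mul_le_mul_of_nonneg_left h4 (by positivity)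
    _ = C * (((2 : ℝ) ^ m) ^ k * (m : ℝ) ^ 3) := by ring

lemma one (hMV : S_MV) (k q A : ℕ) (hk : 2 ≤ k) (hq : 1 ≤ q) (hA : 1 ≤ A) :
    ∀ᵐ α : Fin (k - 1) → ℝ ∂(volume.restrict (cube k A)), ∃ m₀ : ℕ, ∀ m ≥ m₀,
      (NN k q m α : ℝ) ≤ ((2 : ℝ) ^ m) ^ k * (m : ℝ) ^ 3 := by
  obtain ⟨C, hC, h⟩ := bad hMV k q A hk hq hA
  have hs : Summable fun m : ℕ => C / (m : ℝ) ^ 2 := by
    simp only [div_eq_mul_one_div C]
    exact (Real.summable_one_div_nat_pow.2 (by norm_num)).mul_left C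
  have h1 : ∑' m : ℕ, (volume.restrict (cube k A)) {α : Fin (k - 1) → ℝ | 1 ≤ m ∧
      ((2 : ℝ) ^ m) ^ k * (m : ℝ) ^ 3 < (NN k q m α : ℝ)} ≠ ⊤ := by
    refine ne_top_of_le_ne_top hs.tsum_ofReal_ne_top (ENNReal.tsum_le_tsum fun m => ?_)
    by_cases hm : 1 ≤ m
    · simp only [hm, true_and]
      exact h m hm
    · simp [hm]
  filter_upwards [ae_eventually_notMem h1] with α hα
  obtain ⟨m₀, hm₀⟩ := eventually_atTop.1 hα
  refine ⟨max m₀ 1, fun m hm => ?_⟩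
  have h2 := hm₀ m ((le_max_left _ _).trans hm)
  by_contra hcon
  push Not at hcon
  exact h2 ⟨(le_max_right _ _).trans hm, hcon⟩

theorem t_AE (hMV : S_MV) : S_AE := by
  intro k hk
  have h : ∀ᵐ α : Fin (k - 1) → ℝ, ∀ q A : ℕ, 1 ≤ q → 1 ≤ A → α ∈ cube k A → ∃ m₀ : ℕ, ∀ m ≥ m₀,
      (NN k q m α : ℝ) ≤ ((2 : ℝ) ^ m) ^ k * (m : ℝ) ^ 3 := by
    rw [ae_all_iff]
    intro q
    rw [ae_all_iff]
    intro A
    by_cases hq : 1 ≤ q
    · by_cases hA : 1 ≤ A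
      · have h1 := (ae_restrict_iff' (meas_cube k A)).1 (one hMV k q A hk hq hA)
        filter_upwards [h1] with α hα _ _ hc
        exact hα hc
      · filter_upwards with α _ hA'
        exact absurd hA' hA
    · filter_upwards with α hq'
      exact absurd hq' hq
  filter_upwards [h] with α hα q hq
  obtain ⟨A, hA⟩ := exists_nat_ge (∑ j, |α j|)
  have hmem : α ∈ cube k (A + 1) := by
    intro j
    have h1 : |α j| ≤ ∑ j, |α j| := single_le_sum (f := fun j => |α j|) (fun i _ => abs_nonneg _) (mem_univ j)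
    push_cast
    linarith
  exact hα q (A + 1) hq (by omega) hmem

end Pool.Agent.V5helper70.MT
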