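import Pool.Agent.V5helper70.MT.AE

/-! Project MT, job GEN. -/

set_option autoImplicit false

namespace Pool.Agent.V5helper70.MT

open Finset MeasureTheory Filter
open Pool.Agent.V5helper51.MT
open scoped ENNReal

lemma e_eq (x : ℝ) : e x = Complex.exp (Complex.I * ((2 * Real.pi * x : ℝ) : ℂ)) := by
  unfold e
  congr 1
  push_cast
  ring

lemma norm_e (x : ℝ) : ‖e x‖ = 1 := by
  rw [e_eq, mul_comm]
  exact Complex.norm_exp_ofReal_mul_I _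

lemma e_add (x y : ℝ) : e (x + y) = e x * e y := by
  rw [e_eq, e_eq, e_eq, ← Complex.exp_add]
  congr 1
  push_cast
  ring

lemma e_sub_le (x y : ℝ) : ‖e x - e y‖ ≤ 2 * Real.pi * |x - y| := by
  have h1 : e x = e y * e (x - y) := by
    rw [← e_add]; congr 1; ring
  have h2 : e x - e y = e y * (e (x - y) - 1) := by
    rw [h1]; ring
  rw [h2, norm_mul, norm_e, one_mul, e_eq]
  refine (Real.norm_exp_I_mul_ofReal_sub_one_le).trans ?_
  rw [Real.norm_eq_abs, abs_mul, abs_of_pos (by positivity : 0 < 2 * Real.pi)]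

/-- the exponential sum of a block -/
noncomputable def F (k q ρ : ℕ) (ω : ℝ) (u L : ℕ) (α : Fin (k - 1) → ℝ) : ℝ :=
  ‖∑ z ∈ range L, e (ω * G k q ρ α ((u + z : ℕ) : ℝ))‖

/-- the Lipschitz constant -/
noncomputable def CL (k q ρ : ℕ) (α : Fin (k - 1) → ℝ) : ℝ :=
  (q * k * ((q + ρ : ℕ) : ℝ) ^ (k - 1)) * (1 + ∑ j, |α j|)

lemma pow_lip (k q ρ n : ℕ) (hq : 1 ≤ q) (hn1 : 1 ≤ n) (hn : n ≤ k) (X s t : ℝ) (hX : 1 ≤ X) (hs0 : 0 ≤ s) (hs : s ≤ X)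
    (ht0 : 0 ≤ t) (ht : t ≤ X) : |(q * t + ρ) ^ n - (q * s + ρ) ^ n| ≤
      (q * k * ((q + ρ : ℕ) : ℝ) ^ (k - 1)) * (X ^ (k - 1) * |t - s|) := by
  have h1 := abs_pow_sub_pow_le (a := (q : ℝ) * t + ρ) (b := (q : ℝ) * s + ρ) (n := n)
  refine h1.trans ?_
  have hb : ∀ v : ℝ, 0 ≤ v → v ≤ X → |(q : ℝ) * v + ρ| ≤ ((q + ρ : ℕ) : ℝ) * X := by
    intro v hv0 hv
    rw [abs_of_nonneg (by positivity)]
    push_cast
    have h2 : (q : ℝ) * v ≤ q * X := mul_le_mul_of_nonneg_left hv (by positivity)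
    have h3 : (ρ : ℝ) ≤ ρ * X := le_mul_of_one_le_right (by positivity) hX
    linarith
  have hmax : max |(q : ℝ) * t + ρ| |(q : ℝ) * s + ρ| ≤ ((q + ρ : ℕ) : ℝ) * X := max_le (hb t ht0 ht) (hb s hs0 hs)
  have hq1 : (1 : ℝ) ≤ ((q + ρ : ℕ) : ℝ) := by exact_mod_cast (by omega : 1 ≤ q + ρ)
  have h4 : max |(q : ℝ) * t + ρ| |(q : ℝ) * s + ρ| ^ (n - 1) ≤ (((q + ρ : ℕ) : ℝ) * X) ^ (k - 1) := by
    refine (pow_le_pow_left₀ (by positivity) hmax _).trans ?_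
    apply pow_le_pow_right₀ _ (by omega)
    nlinarith
  have h5 : |(q : ℝ) * t + ρ - (q * s + ρ)| = q * |t - s| := by
    have : (q : ℝ) * t + ρ - (q * s + ρ) = q * (t - s) := by ring
    rw [this, abs_mul, abs_of_nonneg (by positivity)]
  rw [h5, mul_pow] at *
  have h6 : (n : ℝ) ≤ k := by exact_mod_cast hn
  calc (q : ℝ) * |t - s| * n * max |(q : ℝ) * t + ρ| |(q : ℝ) * s + ρ| ^ (n - 1)
      ≤ (q : ℝ) * |t - s| * k * (((q + ρ : ℕ) : ℝ) ^ (k - 1) * X ^ (k - 1)) := by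
        apply mul_le_mul _ h4 (by positivity) (by positivity)
        exact mul_le_mul_of_nonneg_left h6 (by positivity)
    _ = _ := by ring

lemma G_lip (k q ρ : ℕ) (hk : 2 ≤ k) (hq : 1 ≤ q) (α : Fin (k - 1) → ℝ) (X s t : ℝ) (hX : 1 ≤ X) (hs0 : 0 ≤ s) (hs : s ≤ X)
    (ht0 : 0 ≤ t) (ht : t ≤ X) : |G k q ρ α t - G k q ρ α s| ≤ CL k q ρ α * (X ^ (k - 1) * |t - s|) := by
  have hq0 : (1 : ℝ) ≤ q := by exact_mod_cast hq
  obtain ⟨D, hD⟩ : ∃ D : ℝ, D = (q * k * ((q + ρ : ℕ) : ℝ) ^ (k - 1)) * (X ^ (k - 1) * |t - s|) := ⟨_, rfl⟩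
  have hD0 : 0 ≤ D := by rw [hD]; positivity
  have h1 : |((q * t + ρ) ^ k - (ρ : ℝ) ^ k) / q - ((q * s + ρ) ^ k - (ρ : ℝ) ^ k) / q| ≤ D := by
    have h2 : ((q * t + ρ) ^ k - (ρ : ℝ) ^ k) / q - ((q * s + ρ) ^ k - (ρ : ℝ) ^ k) / q =
        ((q * t + ρ) ^ k - (q * s + ρ) ^ k) / q := by ring
    rw [h2, abs_div, abs_of_pos (by linarith : (0 : ℝ) < q)]
    have h3 := pow_lip k q ρ k hq (by omega) le_rfl X s t hX hs0 hs ht0 ht
    rw [← hD] at h3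
    exact (div_le_self (abs_nonneg _) hq0).trans h3
  have h2 : |g k α (q * t + ρ) - g k α (q * s + ρ)| ≤ (∑ j, |α j|) * D := by
    unfold g
    rw [← sum_sub_distrib, sum_mul]
    refine (abs_sum_le_sum_abs _ _).trans (sum_le_sum fun j _ => ?_)
    rw [← mul_sub, abs_mul]
    apply mul_le_mul_of_nonneg_left _ (abs_nonneg _)
    rw [hD]
    exact pow_lip k q ρ ((j : ℕ) + 1) hq (by omega) (by have := j.2; omega) X s t hX hs0 hs ht0 ht
  have h3 : G k q ρ α t - G k q ρ α s = (((q * t + ρ) ^ k - (ρ : ℝ) ^ k) / q - ((q * s + ρ) ^ k - (ρ : ℝ) ^ k) / q) +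
      (g k α (q * t + ρ) - g k α (q * s + ρ)) := by
    unfold G; ring
  rw [h3]
  refine (abs_add_le _ _).trans ?_
  have h4 : CL k q ρ α * (X ^ (k - 1) * |t - s|) = D + (∑ j, |α j|) * D := by
    rw [hD]; unfold CL; ring
  rw [h4]
  exact add_le_add h1 h2

lemma sum_blocks (f : ℕ → ℂ) (L : ℕ) : ∀ K : ℕ, ∑ z ∈ range (K * L), f z = ∑ i ∈ range K, ∑ z ∈ range L, f (i * L + z) := by
  intro K
  induction K with
  | zero => simp
  | succ K ih =>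
    rw [Nat.succ_mul, sum_range_add, ih, sum_range_succ]

/-- one block -/
lemma one_block (k q ρ : ℕ) (hk : 2 ≤ k) (hq : 1 ≤ q) (α : Fin (k - 1) → ℝ) (X u L : ℕ) (hX : 1 ≤ X) (huL : u + L ≤ X)
    (ω τ : ℝ) : ‖∑ z ∈ range L, e ((ω + τ) * G k q ρ α ((u + z : ℕ) : ℝ))‖ ≤
      F k q ρ ω u L α + L * (2 * Real.pi * (|τ| * (CL k q ρ α * ((X : ℝ) ^ (k - 1) * L)))) := by
  have h1 : ∑ z ∈ range L, e ((ω + τ) * G k q ρ α ((u + z : ℕ) : ℝ)) =
      e (τ * G k q ρ α (u : ℝ)) * ∑ z ∈ range L, e (ω * G k q ρ α ((u + z : ℕ) : ℝ)) +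
      ∑ z ∈ range L, e (ω * G k q ρ α ((u + z : ℕ) : ℝ)) *
        (e (τ * G k q ρ α ((u + z : ℕ) : ℝ)) - e (τ * G k q ρ α (u : ℝ))) := by
    rw [mul_sum, ← sum_add_distrib]
    apply sum_congr rfl
    intro z _
    rw [add_mul, e_add]
    ring
  rw [h1]
  refine (norm_add_le _ _).trans ?_
  apply add_le_add
  · rw [norm_mul, norm_e, one_mul]
    exact le_rfl
  · refine (norm_sum_le _ _).trans ?_
    have h2 : ∀ z ∈ range L, ‖e (ω * G k q ρ α ((u + z : ℕ) : ℝ)) *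
        (e (τ * G k q ρ α ((u + z : ℕ) : ℝ)) - e (τ * G k q ρ α (u : ℝ)))‖ ≤
        2 * Real.pi * (|τ| * (CL k q ρ α * ((X : ℝ) ^ (k - 1) * L))) := by
      intro z hz
      have hz' := mem_range.1 hz
      rw [norm_mul, norm_e, one_mul]
      refine (e_sub_le _ _).trans ?_
      apply mul_le_mul_of_nonneg_left _ (by positivity)
      rw [← mul_sub, abs_mul]
      apply mul_le_mul_of_nonneg_left _ (abs_nonneg _)
      have hX1 : (1 : ℝ) ≤ X := by exact_mod_cast hX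
      have h3 := G_lip k q ρ hk hq α X (u : ℝ) ((u + z : ℕ) : ℝ) hX1 (by positivity)
        (by exact_mod_cast (by omega : u ≤ X)) (by positivity) (by exact_mod_cast (by omega : u + z ≤ X))
      refine h3.trans ?_
      have hCL : 0 ≤ CL k q ρ α := by unfold CL; positivity
      apply mul_le_mul_of_nonneg_left _ hCL
      apply mul_le_mul_of_nonneg_left _ (by positivity)
      have h4 : ((u + z : ℕ) : ℝ) - u = z := by push_cast; ring
      rw [h4, abs_of_nonneg (by positivity)]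
      exact_mod_cast hz'.le
    refine (sum_le_sum h2).trans ?_
    rw [sum_const, card_range, nsmul_eq_mul]

/-- the whole sum -/
lemma whole (k q ρ : ℕ) (hk : 2 ≤ k) (hq : 1 ≤ q) (α : Fin (k - 1) → ℝ) (X L : ℕ) (hX : 1 ≤ X) (hL : 1 ≤ L)
    (ω τ B : ℝ) (hB : ∀ i < X / L, F k q ρ ω (i * L) L α ≤ B) :
    ‖∑ z ∈ range X, e ((ω + τ) * G k q ρ α (z : ℝ))‖ ≤
      (X / L : ℕ) * (B + L * (2 * Real.pi * (|τ| * (CL k q ρ α * ((X : ℝ) ^ (k - 1) * L))))) + L := by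
  obtain ⟨K, hK⟩ : ∃ K, K = X / L := ⟨_, rfl⟩
  rw [← hK] at hB ⊢
  have hKL : K * L ≤ X := by rw [hK]; exact Nat.div_mul_le_self X L
  have hr : X - K * L ≤ L := by
    have h1 := Nat.lt_div_mul_add hL (a := X)
    rw [← hK] at h1
    omega
  have hXe : X = K * L + (X - K * L) := by omega
  have h1 : ∑ z ∈ range X, e ((ω + τ) * G k q ρ α (z : ℝ)) =
      (∑ i ∈ range K, ∑ z ∈ range L, e ((ω + τ) * G k q ρ α ((i * L + z : ℕ) : ℝ))) +
      ∑ z ∈ range (X - K * L), e ((ω + τ) * G k q ρ α ((K * L + z : ℕ) : ℝ)) := by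
    conv_lhs => rw [hXe]
    rw [sum_range_add, sum_blocks (fun z : ℕ => e ((ω + τ) * G k q ρ α (z : ℝ))) L K]
  rw [h1]
  refine (norm_add_le _ _).trans ?_
  apply add_le_add
  · refine (norm_sum_le _ _).trans ?_
    have h2 : ∀ i ∈ range K, ‖∑ z ∈ range L, e ((ω + τ) * G k q ρ α ((i * L + z : ℕ) : ℝ))‖ ≤
        B + L * (2 * Real.pi * (|τ| * (CL k q ρ α * ((X : ℝ) ^ (k - 1) * L)))) := by
      intro i hi
      have hi' := mem_range.1 hi
      have h3 : i * L + L ≤ X := by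
        have h4 : (i + 1) * L ≤ K * L := Nat.mul_le_mul_right L hi'
        rw [add_mul, one_mul] at h4
        exact h4.trans hKL
      have h5 := one_block k q ρ hk hq α X (i * L) L hX h3 ω τ
      linarith [hB i hi']
    refine (sum_le_sum h2).trans ?_
    rw [sum_const, card_range, nsmul_eq_mul]
  · refine (norm_sum_le _ _).trans ?_
    simp only [norm_e, sum_const, card_range, nsmul_eq_mul, mul_one]
    exact_mod_cast hr

lemma F_cont (k q ρ : ℕ) (ω : ℝ) (u L : ℕ) : Continuous (F k q ρ ω u L) := by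
  unfold F e G g
  fun_prop

lemma F_nonneg (k q ρ : ℕ) (ω : ℝ) (u L : ℕ) (α : Fin (k - 1) → ℝ) : 0 ≤ F k q ρ ω u L α := norm_nonneg _

lemma F_le (k q ρ : ℕ) (ω : ℝ) (u L : ℕ) (α : Fin (k - 1) → ℝ) : F k q ρ ω u L α ≤ L := by
  unfold F
  refine (norm_sum_le _ _).trans ?_
  simp only [norm_e, sum_const, card_range, nsmul_eq_mul, mul_one]
  exact le_rfl

lemma markov (k q ρ A : ℕ) (u L : ℕ) (ω I T : ℝ) (hT : 0 < T)
    (h : ∫ α in cube k A, ‖∑ z ∈ range L, e (ω * G k q ρ α ((u + z : ℕ) : ℝ))‖ ^ 2 ≤ I) :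
    (volume.restrict (cube k A)) {α : Fin (k - 1) → ℝ | T ≤ (F k q ρ ω u L α) ^ 2} ≤ ENNReal.ofReal (I / T) := by
  have : IsFiniteMeasure (volume.restrict (cube k A)) :=
    ⟨by rw [Measure.restrict_apply_univ]; exact (cube_fin k A).lt_top⟩
  have hint : Integrable (fun α => (F k q ρ ω u L α) ^ 2) (volume.restrict (cube k A)) := by
    refine Integrable.of_bound ((F_cont k q ρ ω u L).pow 2).aestronglyMeasurable ((L : ℝ) ^ 2)
      (Eventually.of_forall fun α => ?_)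
    rw [Real.norm_of_nonneg (by positivity)]
    exact pow_le_pow_left₀ (F_nonneg k q ρ ω u L α) (F_le k q ρ ω u L α) 2
  have h1 := mul_meas_ge_le_integral_of_nonneg (μ := volume.restrict (cube k A))
    (f := fun α => (F k q ρ ω u L α) ^ 2) (Eventually.of_forall fun α => sq_nonneg _) hint T
  have h2 : T * (volume.restrict (cube k A)).real {α : Fin (k - 1) → ℝ | T ≤ (F k q ρ ω u L α) ^ 2} ≤ I := h1.trans h
  have h3 : (volume.restrict (cube k A)).real {α : Fin (k - 1) → ℝ | T ≤ (F k q ρ ω u L α) ^ 2} ≤ I / T := by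
    rw [le_div_iff₀ hT, mul_comm]
    exact h2
  rw [← ofReal_measureReal (measure_ne_top _ _)]
  exact ENNReal.ofReal_le_ofReal h3

/-- the twentieth root -/
noncomputable def tt (X : ℕ) : ℝ := (X : ℝ) ^ (1 / 20 : ℝ)

lemma tt_nonneg (X : ℕ) : 0 ≤ tt X := by unfold tt; positivity

lemma tt_pow (X n : ℕ) : tt X ^ n = (X : ℝ) ^ ((n : ℝ) / 20) := by
  unfold tt
  rw [← Real.rpow_natCast, ← Real.rpow_mul (by positivity)]
  congr 1
  ring

lemma tt_pow20 (X : ℕ) : tt X ^ 20 = X := by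
  rw [tt_pow]
  norm_num

lemma one_le_tt (X : ℕ) (hX : 1 ≤ X) : 1 ≤ tt X := by
  unfold tt
  exact Real.one_le_rpow (by exact_mod_cast hX) (by norm_num)

/-- the length of the blocks -/
noncomputable def LL (X : ℕ) : ℕ := ⌈tt X ^ 17⌉₊

lemma LL_ge (X : ℕ) : tt X ^ 17 ≤ LL X := Nat.le_ceil _

lemma LL_le (X : ℕ) (hX : 1 ≤ X) : (LL X : ℝ) ≤ 2 * tt X ^ 17 := by
  have h1 := (Nat.ceil_lt_add_one (pow_nonneg (tt_nonneg X) 17)).le
  have h2 : 1 ≤ tt X ^ 17 := one_le_pow₀ (one_le_tt X hX)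
  unfold LL
  linarith

lemma LL_pos (X : ℕ) (hX : 1 ≤ X) : 1 ≤ LL X := by
  have h2 : 1 ≤ tt X ^ 17 := one_le_pow₀ (one_le_tt X hX)
  have h3 : (1 : ℝ) ≤ LL X := h2.trans (LL_ge X)
  exact_mod_cast h3

lemma LL_le_X (X : ℕ) (hX : 1 ≤ X) : LL X ≤ X := by
  unfold LL
  rw [Nat.ceil_le]
  calc tt X ^ 17 ≤ tt X ^ 20 := pow_le_pow_right₀ (one_le_tt X hX) (by norm_num)
    _ = X := tt_pow20 X

/-- the threshold -/
noncomputable def BB (X : ℕ) : ℝ := LL X / tt X ^ 2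

/-- the bad set of one block and one rational -/
def S1 (k q ρ X : ℕ) (p : ℕ × ℤ × ℕ) : Set (Fin (k - 1) → ℝ) :=
  {α | p.2.1 ≠ 0 ∧ BB X ^ 2 ≤ (F k q ρ ((p.2.1 : ℝ) / p.1) (p.2.2 * LL X) (LL X) α) ^ 2}

/-- the indices -/
noncomputable def idx (X : ℕ) : Finset (ℕ × ℤ × ℕ) :=
  Icc 1 ⌊tt X⌋₊ ×ˢ (Icc (-(⌊tt X⌋₊ : ℤ)) ⌊tt X⌋₊ ×ˢ range (X / LL X))

lemma idx_card (X : ℕ) (hX : 1 ≤ X) : ((idx X).card : ℝ) ≤ 3 * tt X ^ 5 := by
  have ht := one_le_tt X hX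
  have hN : ((⌊tt X⌋₊ : ℕ) : ℝ) ≤ tt X := Nat.floor_le (tt_nonneg X)
  have hL0 : (0 : ℝ) < LL X := by exact_mod_cast LL_pos X hX
  have hK : ((X / LL X : ℕ) : ℝ) ≤ tt X ^ 3 := by
    refine (Nat.cast_div_le).trans ?_
    rw [div_le_iff₀ hL0]
    calc (X : ℝ) = tt X ^ 3 * tt X ^ 17 := by rw [← pow_add, tt_pow20]
      _ ≤ tt X ^ 3 * LL X := mul_le_mul_of_nonneg_left (LL_ge X) (by positivity)
  have h1 : (idx X).card = ⌊tt X⌋₊ * ((2 * ⌊tt X⌋₊ + 1) * (X / LL X)) := by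
    unfold idx
    rw [card_product, card_product, Nat.card_Icc, Int.card_Icc, card_range]
    congr 2
    omega
  rw [h1]
  push_cast
  have h2 : 2 * ((⌊tt X⌋₊ : ℕ) : ℝ) + 1 ≤ 3 * tt X := by linarith
  calc ((⌊tt X⌋₊ : ℕ) : ℝ) * ((2 * ((⌊tt X⌋₊ : ℕ) : ℝ) + 1) * ((X / LL X : ℕ) : ℝ))
      ≤ tt X * ((3 * tt X) * tt X ^ 3) := by
        apply mul_le_mul hN _ (by positivity) (by positivity)
        exact mul_le_mul h2 hK (by positivity) (by positivity)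
    _ = 3 * tt X ^ 5 := by ring

lemma S1_meas (k q ρ A : ℕ) (C : ℝ) (hC : 0 < C) (h : ∀ u L : ℕ, 1 ≤ L → ∀ ω : ℝ, ω ≠ 0 →
    ∫ α in cube k A, ‖∑ z ∈ range L, e (ω * G k q ρ α ((u + z : ℕ) : ℝ))‖ ^ 2 ≤
      C * L * (1 + (1 + Real.log L) / |ω|)) (X : ℕ) (hX : 1 ≤ X) (p : ℕ × ℤ × ℕ) (hp : p ∈ idx X) :
    (volume.restrict (cube k A)) (S1 k q ρ X p) ≤ ENNReal.ofReal (22 * C / tt X ^ 11) := by
  by_cases hc : p.2.1 = 0
  · have : S1 k q ρ X p = ∅ := by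
      ext α
      simp [S1, hc]
    rw [this, measure_empty]
    exact bot_le
  have ht := one_le_tt X hX
  have ht0 : 0 < tt X := by linarith
  have hL1 := LL_pos X hX
  have hL0 : (0 : ℝ) < LL X := by exact_mod_cast hL1
  obtain ⟨b, c, i⟩ := p
  simp only [idx, mem_product, mem_Icc, mem_range] at hp
  obtain ⟨⟨hb1, hb2⟩, ⟨hc1, hc2⟩, hi⟩ := hp
  have hcc : c ≠ 0 := hc
  have hb0 : (0 : ℝ) < b := by exact_mod_cast hb1
  have hc0 : (c : ℝ) ≠ 0 := by exact_mod_cast hcc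
  have hω : (c : ℝ) / b ≠ 0 := div_ne_zero hc0 hb0.ne'
  have h1 := h (i * LL X) (LL X) hL1 ((c : ℝ) / b) hω
  have hT : 0 < BB X ^ 2 := by unfold BB; positivity
  have h2 := markov k q ρ A (i * LL X) (LL X) ((c : ℝ) / b) _ (BB X ^ 2) hT h1
  have h3 : S1 k q ρ X (b, c, i) ⊆ {α : Fin (k - 1) → ℝ | BB X ^ 2 ≤ (F k q ρ ((c : ℝ) / b) (i * LL X) (LL X) α) ^ 2} :=
    fun α hα => hα.2
  refine (measure_mono h3).trans (h2.trans (ENNReal.ofReal_le_ofReal ?_))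
  have hbt : (b : ℝ) ≤ tt X := by
    have : (b : ℝ) ≤ ((⌊tt X⌋₊ : ℕ) : ℝ) := by exact_mod_cast hb2
    exact this.trans (Nat.floor_le (tt_nonneg X))
  have hca : (1 : ℝ) ≤ |(c : ℝ)| := by
    have : (1 : ℤ) ≤ |c| := Int.one_le_abs hcc
    exact_mod_cast this
  have hlog : Real.log (LL X) ≤ 20 * tt X := by
    have h4 : Real.log (LL X) ≤ Real.log X := Real.log_le_log hL0 (by exact_mod_cast LL_le_X X hX)
    have h5 : Real.log X = 20 * Real.log (tt X) := by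
      conv_lhs => rw [← tt_pow20 X]
      rw [Real.log_pow]
      norm_num
    have h6 : Real.log (tt X) ≤ tt X := (Real.log_le_sub_one_of_pos ht0).trans (by linarith)
    linarith
  have hlog0 : 0 ≤ Real.log (LL X) := Real.log_natCast_nonneg _
  have h7 : (1 + Real.log (LL X)) / |(c : ℝ) / b| ≤ 21 * tt X ^ 2 := by
    rw [abs_div, abs_of_pos hb0, div_div_eq_mul_div, div_le_iff₀ (by linarith)]
    calc (1 + Real.log (LL X)) * b ≤ (21 * tt X) * tt X := by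
          apply mul_le_mul _ hbt (by positivity) (by positivity)
          linarith
      _ = 21 * tt X ^ 2 * 1 := by ring
      _ ≤ 21 * tt X ^ 2 * |(c : ℝ)| := mul_le_mul_of_nonneg_left hca (by positivity)
  have h8 : 1 + (1 + Real.log (LL X)) / |(c : ℝ) / b| ≤ 22 * tt X ^ 2 := by
    have : 1 ≤ tt X ^ 2 := one_le_pow₀ ht
    linarith
  rw [div_le_div_iff₀ hT (by positivity)]
  have h9 : BB X ^ 2 * tt X ^ 4 = (LL X : ℝ) ^ 2 := by
    unfold BB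
    field_simp
  have h10 : C * LL X * (1 + (1 + Real.log (LL X)) / |(c : ℝ) / b|) ≤ C * LL X * (22 * tt X ^ 2) :=
    mul_le_mul_of_nonneg_left h8 (by positivity)
  have h11 : tt X ^ 17 * LL X ≤ LL X * LL X := mul_le_mul_of_nonneg_right (LL_ge X) hL0.le
  have h12 : C * LL X * (22 * tt X ^ 2) * tt X ^ 11 * tt X ^ 4 ≤ 22 * C * BB X ^ 2 * tt X ^ 4 := by
    calc C * LL X * (22 * tt X ^ 2) * tt X ^ 11 * tt X ^ 4 = 22 * C * (tt X ^ 17 * LL X) := by ring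
      _ ≤ 22 * C * (LL X * LL X) := mul_le_mul_of_nonneg_left h11 (by positivity)
      _ = 22 * C * (LL X : ℝ) ^ 2 := by ring
      _ = 22 * C * BB X ^ 2 * tt X ^ 4 := by rw [← h9]; ring
  have h13 := le_of_mul_le_mul_right h12 (by positivity : 0 < tt X ^ 4)
  exact (mul_le_mul_of_nonneg_right h10 (by positivity)).trans h13

/-- the bad set of a scale -/
def S2 (k q ρ X : ℕ) : Set (Fin (k - 1) → ℝ) := ⋃ p ∈ idx X, S1 k q ρ X p

lemma S2_meas (k q ρ A : ℕ) (C : ℝ) (hC : 0 < C) (h : ∀ u L : ℕ, 1 ≤ L → ∀ ω : ℝ, ω ≠ 0 →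
    ∫ α in cube k A, ‖∑ z ∈ range L, e (ω * G k q ρ α ((u + z : ℕ) : ℝ))‖ ^ 2 ≤
      C * L * (1 + (1 + Real.log L) / |ω|)) (X : ℕ) (hX : 1 ≤ X) :
    (volume.restrict (cube k A)) (S2 k q ρ X) ≤ ENNReal.ofReal (66 * C / tt X ^ 6) := by
  have ht := one_le_tt X hX
  have ht0 : 0 < tt X := by linarith
  unfold S2
  refine (measure_biUnion_finset_le _ _).trans ?_
  refine (sum_le_sum fun p hp => S1_meas k q ρ A C hC h X hX p hp).trans ?_
  rw [sum_const, nsmul_eq_mul, ← ENNReal.ofReal_natCast, ← ENNReal.ofReal_mul (by positivity)]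
  apply ENNReal.ofReal_le_ofReal
  calc ((idx X).card : ℝ) * (22 * C / tt X ^ 11) ≤ (3 * tt X ^ 5) * (22 * C / tt X ^ 11) :=
        mul_le_mul_of_nonneg_right (idx_card X hX) (by positivity)
    _ = 66 * C / tt X ^ 6 := by
        field_simp
        ring

lemma tt_two (m : ℕ) : tt (2 ^ m) ^ 6 = ((2 : ℝ) ^ (3 / 10 : ℝ)) ^ m := by
  rw [tt_pow]
  push_cast
  rw [← Real.rpow_natCast, ← Real.rpow_natCast, ← Real.rpow_mul (by norm_num), ← Real.rpow_mul (by norm_num)]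
  congr 1
  ring

lemma tt_mono (X Y : ℕ) (h : X ≤ Y) : tt X ≤ tt Y := by
  unfold tt
  exact Real.rpow_le_rpow (by positivity) (by exact_mod_cast h) (by norm_num)

lemma ev (hSQ : S_SQ) (k q ρ M A : ℕ) (hk : 2 ≤ k) (hq : 1 ≤ q) (hM : 1 ≤ M) (hA : 1 ≤ A) :
    ∀ᵐ α : Fin (k - 1) → ℝ ∂(volume.restrict (cube k A)), ∃ m₀ : ℕ, ∀ m ≥ m₀, α ∉ S2 k q ρ (M * 2 ^ m) := by
  obtain ⟨C, hC, h⟩ := hSQ k q ρ A hk hq hA
  have hr1 : (1 : ℝ) < (2 : ℝ) ^ (3 / 10 : ℝ) := Real.one_lt_rpow (by norm_num) (by norm_num)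
  have hr0 : (0 : ℝ) < (2 : ℝ) ^ (3 / 10 : ℝ) := by linarith
  have hs : Summable fun m : ℕ => 66 * C * (((2 : ℝ) ^ (3 / 10 : ℝ))⁻¹) ^ m :=
    (summable_geometric_of_lt_one (by positivity) (inv_lt_one_of_one_lt₀ hr1)).mul_left _
  have h1 : ∑' m : ℕ, (volume.restrict (cube k A)) (S2 k q ρ (M * 2 ^ m)) ≠ ⊤ := by
    refine ne_top_of_le_ne_top hs.tsum_ofReal_ne_top (ENNReal.tsum_le_tsum fun m => ?_)
    have hX : 1 ≤ M * 2 ^ m := Nat.one_le_iff_ne_zero.2 (by positivity)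
    refine (S2_meas k q ρ A C hC h (M * 2 ^ m) hX).trans (ENNReal.ofReal_le_ofReal ?_)
    rw [inv_pow, ← div_eq_mul_inv]
    apply div_le_div_of_nonneg_left (by positivity) (by positivity)
    rw [← tt_two]
    exact pow_le_pow_left₀ (tt_nonneg _) (tt_mono _ _ (Nat.le_mul_of_pos_left _ hM)) 6
  filter_upwards [ae_eventually_notMem h1] with α hα
  exact eventually_atTop.1 hα

lemma fin_bound (k q ρ : ℕ) (hk : 2 ≤ k) (hq : 1 ≤ q) (α : Fin (k - 1) → ℝ) (X : ℕ) (hX : 1 ≤ X)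
    (hα : α ∉ S2 k q ρ X) (ht : 3 + 4 * Real.pi * CL k q ρ α ≤ tt X) (b : ℕ) (c : ℤ) (τ : ℝ) (hb : 1 ≤ b)
    (hb2 : (b : ℝ) ≤ tt X) (hc : c ≠ 0) (hc2 : |(c : ℝ)| ≤ tt X) (hτ : |τ| ≤ tt X / (X : ℝ) ^ k) :
    ‖∑ z ∈ range X, e (((c : ℝ) / b + τ) * G k q ρ α z)‖ ≤ tt X ^ 19 := by
  have ht1 := one_le_tt X hX
  have ht0 : 0 < tt X := by linarith
  have hL1 := LL_pos X hX
  have hL0 : (0 : ℝ) < LL X := by exact_mod_cast hL1
  have hX0 : (0 : ℝ) < X := by exact_mod_cast hX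
  have hCL : 0 ≤ CL k q ρ α := by unfold CL; positivity
  have hBB : 0 ≤ BB X := by unfold BB; positivity
  have hB : ∀ i < X / LL X, F k q ρ ((c : ℝ) / b) (i * LL X) (LL X) α ≤ BB X := by
    intro i hi
    by_contra hcon
    push Not at hcon
    apply hα
    unfold S2
    simp only [Set.mem_iUnion]
    refine ⟨(b, c, i), ?_, hc, ?_⟩
    · simp only [idx, mem_product, mem_Icc, mem_range]
      have hcN : |c| ≤ ((⌊tt X⌋₊ : ℕ) : ℤ) := by
        have h1 : c.natAbs ≤ ⌊tt X⌋₊ := by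
          apply Nat.le_floor
          rw [Nat.cast_natAbs]
          push_cast
          exact hc2
        rw [Int.abs_eq_natAbs]
        exact_mod_cast h1
      exact ⟨⟨hb, Nat.le_floor hb2⟩, abs_le.1 hcN, hi⟩
    · exact pow_le_pow_left₀ hBB hcon.le 2
  refine (whole k q ρ hk hq α X (LL X) hX hL1 ((c : ℝ) / b) τ (BB X) hB).trans ?_
  have hKL : ((X / LL X : ℕ) : ℝ) * LL X ≤ X := by exact_mod_cast Nat.div_mul_le_self X (LL X)
  have h1 : ((X / LL X : ℕ) : ℝ) * BB X ≤ tt X ^ 18 := by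
    have h2 : ((X / LL X : ℕ) : ℝ) * BB X = (((X / LL X : ℕ) : ℝ) * LL X) / tt X ^ 2 := by
      unfold BB
      ring
    rw [h2, div_le_iff₀ (by positivity)]
    calc ((X / LL X : ℕ) : ℝ) * LL X ≤ X := hKL
      _ = tt X ^ 18 * tt X ^ 2 := by rw [← pow_add, tt_pow20]
  have h3 : |τ| * (X : ℝ) ^ (k - 1) ≤ tt X / X := by
    calc |τ| * (X : ℝ) ^ (k - 1) ≤ tt X / (X : ℝ) ^ k * (X : ℝ) ^ (k - 1) :=
          mul_le_mul_of_nonneg_right hτ (by positivity)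
      _ = tt X / X := by
          obtain ⟨n, rfl⟩ : ∃ n, k = n + 1 := ⟨k - 1, by omega⟩
          rw [Nat.add_sub_cancel, pow_succ]
          field_simp
  have h4 : ((X / LL X : ℕ) : ℝ) * (LL X * (2 * Real.pi * (|τ| * (CL k q ρ α * ((X : ℝ) ^ (k - 1) * LL X))))) ≤
      4 * Real.pi * CL k q ρ α * tt X ^ 18 := by
    calc ((X / LL X : ℕ) : ℝ) * (LL X * (2 * Real.pi * (|τ| * (CL k q ρ α * ((X : ℝ) ^ (k - 1) * LL X)))))
        = (((X / LL X : ℕ) : ℝ) * LL X) * (2 * Real.pi * CL k q ρ α) * (|τ| * (X : ℝ) ^ (k - 1)) * LL X := by ring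
      _ ≤ X * (2 * Real.pi * CL k q ρ α) * (tt X / X) * (2 * tt X ^ 17) := by
          apply mul_le_mul _ (LL_le X hX) (by positivity) (by positivity)
          apply mul_le_mul _ h3 (by positivity) (by positivity)
          exact mul_le_mul_of_nonneg_right hKL (by positivity)
      _ = 4 * Real.pi * CL k q ρ α * tt X ^ 18 := by
          field_simp
          ring
  have h5 : (LL X : ℝ) ≤ 2 * tt X ^ 18 := by
    refine (LL_le X hX).trans ?_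
    have : tt X ^ 17 ≤ tt X ^ 18 := pow_le_pow_right₀ ht1 (by norm_num)
    linarith
  calc ((X / LL X : ℕ) : ℝ) * (BB X + LL X * (2 * Real.pi * (|τ| * (CL k q ρ α * ((X : ℝ) ^ (k - 1) * LL X))))) + LL X
      = ((X / LL X : ℕ) : ℝ) * BB X + ((X / LL X : ℕ) : ℝ) * (LL X * (2 * Real.pi * (|τ| * (CL k q ρ α *
        ((X : ℝ) ^ (k - 1) * LL X))))) + LL X := by ring
    _ ≤ tt X ^ 18 + 4 * Real.pi * CL k q ρ α * tt X ^ 18 + 2 * tt X ^ 18 := by linarith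
    _ = (3 + 4 * Real.pi * CL k q ρ α) * tt X ^ 18 := by ring
    _ ≤ tt X * tt X ^ 18 := mul_le_mul_of_nonneg_right ht (by positivity)
    _ = tt X ^ 19 := by ring

lemma tt_tendsto (M : ℕ) (hM : 1 ≤ M) (R : ℝ) : ∃ m₁ : ℕ, ∀ m ≥ m₁, R ≤ tt (M * 2 ^ m) := by
  have hr1 : (1 : ℝ) < (2 : ℝ) ^ (1 / 20 : ℝ) := Real.one_lt_rpow (by norm_num) (by norm_num)
  obtain ⟨m₁, hm₁⟩ := pow_unbounded_of_one_lt R hr1
  refine ⟨m₁, fun m hm => ?_⟩
  have h1 : ((2 : ℝ) ^ (1 / 20 : ℝ)) ^ m = tt (2 ^ m) := by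
    unfold tt
    push_cast
    rw [← Real.rpow_natCast, ← Real.rpow_natCast, ← Real.rpow_mul (by norm_num), ← Real.rpow_mul (by norm_num)]
    congr 1
    ring
  calc R ≤ ((2 : ℝ) ^ (1 / 20 : ℝ)) ^ m₁ := hm₁.le
    _ ≤ ((2 : ℝ) ^ (1 / 20 : ℝ)) ^ m := pow_le_pow_right₀ hr1.le hm
    _ = tt (2 ^ m) := h1
    _ ≤ tt (M * 2 ^ m) := tt_mono _ _ (Nat.le_mul_of_pos_left _ hM)

theorem t_GEN (hSQ : S_SQ) : S_GEN := by
  intro k q ρ M hk hq hM
  have h : ∀ᵐ α : Fin (k - 1) → ℝ, ∀ A : ℕ, 1 ≤ A → α ∈ cube k A → ∃ m₀ : ℕ, ∀ m ≥ m₀,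
      α ∉ S2 k q ρ (M * 2 ^ m) := by
    rw [ae_all_iff]
    intro A
    by_cases hA : 1 ≤ A
    · have h1 := (ae_restrict_iff' (meas_cube k A)).1 (ev hSQ k q ρ M A hk hq hM hA)
      filter_upwards [h1] with α hα _ hc
      exact hα hc
    · filter_upwards with α hA'
      exact absurd hA' hA
  filter_upwards [h] with α hα
  obtain ⟨A, hA⟩ := exists_nat_ge (∑ j, |α j|)
  have hmem : α ∈ cube k (A + 1) := by
    intro j
    have h1 : |α j| ≤ ∑ j, |α j| := single_le_sum (f := fun j => |α j|) (fun i _ => abs_nonneg _) (mem_univ j)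
    push_cast
    linarith
  obtain ⟨m₀, hm₀⟩ := hα (A + 1) (by omega) hmem
  obtain ⟨m₁, hm₁⟩ := tt_tendsto M hM (3 + 4 * Real.pi * CL k q ρ α)
  refine ⟨max m₀ m₁, fun m hm X hX b c τ hb hb2 hc hc2 hτ => ?_⟩
  have hX1 : 1 ≤ M * 2 ^ m := Nat.one_le_iff_ne_zero.2 (by positivity)
  have h1 := hm₀ m ((le_max_left _ _).trans hm)
  have h2 := hm₁ m ((le_max_right _ _).trans hm)
  rw [← hX] at hX1 h1 h2
  have h3 := fin_bound k q ρ hk hq α X hX1 h1 h2 b c τ hb hb2 hc hc2 hτ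
  refine h3.trans (le_of_eq ?_)
  rw [tt_pow]
  norm_num

end Pool.Agent.V5helper70.MT
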